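import Pool.Agent.Helper44_Art.Stmt2

set_option autoImplicit false

namespace Art.H84

open Art

theorem alt_conj {A : Type} [Group A] (g x y : A) (m : ℕ) :
    alt m (g * x * g⁻¹) (g * y * g⁻¹) = g * alt m x y * g⁻¹ := by
  have h := map_alt (MulAut.conj g).toMonoidHom m x y
  simp only [MulEquiv.coe_toMonoidHom, MulAut.conj_apply] at h
  exact h.symm

/-- (ATOM) -/
theorem atom : AtomStmt := by
  intro A _ a b m hm hrel
  have ha : a ∈ Subgroup.closure ({a, b} : Set A) := Subgroup.subset_closure (by simp)
  have hb : b ∈ Subgroup.closure ({a, b} : Set A) := Subgroup.subset_closure (by simp)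
  rcases Nat.even_or_odd m with he | ho
  · refine ⟨fun i => if Even i then a else b, ?_, ?_, ?_, ?_, ?_, ?_⟩
    · simp
    · have : ¬ Even (m - 1) := by
        obtain ⟨k, hk⟩ := he
        rw [Nat.not_even_iff_odd]
        exact ⟨k - 1, by omega⟩
      simp [this]
    · intro i
      simp only [Nat.even_add, he, iff_true]
    · intro i
      by_cases hi : Even i
      · simp only [hi, if_true, Nat.even_add_one, not_true_eq_false, if_false]
        exact hrel
      · simp only [hi, if_false, Nat.even_add_one, not_false_eq_true, if_true]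
        exact hrel.symm
    · intro _ i
      simp [Nat.even_add]
    · intro i
      dsimp only
      split_ifs
      · exact ha
      · exact hb
  · obtain ⟨k, hk⟩ := ho
    have hk1 : 1 ≤ k := by omega
    set δ : A := a * b with hδ
    -- the relations
    have r1 : δ ^ k * a = b * δ ^ k := by
      have h1 := hrel
      rw [hk, alt_two_mul_add_one, alt_two_mul_add_one] at h1
      rw [hδ, h1]
      -- `(b a)^k b = b (a b)^k`
      have : ∀ n : ℕ, (b * a) ^ n * b = b * (a * b) ^ n := by
        intro n
        induction n with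
        | zero => simp
        | succ n ih =>
          rw [pow_succ', mul_assoc, ih, pow_succ']
          simp only [mul_assoc]
      exact this k
    have r2 : δ ^ (k + 1) * b = a * δ ^ (k + 1) := by
      have h1 : δ ^ (k + 1) = a * δ ^ k * a := by
        rw [pow_succ', mul_assoc a, mul_assoc a, r1]
      calc δ ^ (k + 1) * b = a * δ ^ k * a * b := by rw [← h1]
        _ = a * (δ ^ k * δ) := by rw [hδ]; simp only [mul_assoc]
        _ = a * δ ^ (k + 1) := by rw [← pow_succ]
    set α : ℕ → A := fun i => if Even i then δ ^ (i / 2) * a * (δ ^ (i / 2))⁻¹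
      else δ ^ ((i + 1) / 2) * b * (δ ^ ((i + 1) / 2))⁻¹ with hα
    have αe : ∀ j, α (2 * j) = δ ^ j * a * (δ ^ j)⁻¹ := by
      intro j
      have h1 : Even (2 * j) := even_two_mul j
      have h2 : 2 * j / 2 = j := by omega
      simp only [hα, h1, if_true, h2]
    have αo : ∀ j, α (2 * j + 1) = δ ^ (j + 1) * b * (δ ^ (j + 1))⁻¹ := by
      intro j
      have h1 : ¬ Even (2 * j + 1) := by simp
      have h2 : (2 * j + 1 + 1) / 2 = j + 1 := by omega
      simp only [hα, h1, if_false, h2]
    refine ⟨α, ?_, ?_, ?_, ?_, ?_, ?_⟩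
    · have := αe 0
      simpa using this
    · have h1 : m - 1 = 2 * k := by omega
      rw [h1, αe, r1]
      group
    · intro i
      rcases Nat.even_or_odd' i with ⟨j, hj | hj⟩
      · have h1 : i + m = 2 * (j + k) + 1 := by omega
        rw [h1, αo, hj, αe]
        have h2 : j + k + 1 = j + (k + 1) := by ring
        rw [h2, pow_add, mul_assoc (δ ^ j), r2]
        group
      · have h1 : i + m = 2 * (j + 1 + k) := by omega
        rw [h1, αe, hj, αo, pow_add, mul_assoc (δ ^ (j + 1)), r1]
        group
    · intro i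
      rcases Nat.even_or_odd' i with ⟨j, hj | hj⟩
      · rw [hj, αe, αo]
        have e1 : δ ^ j * a * (δ ^ j)⁻¹ = (δ ^ j * a) * a * (δ ^ j * a)⁻¹ := by group
        have e2 : δ ^ (j + 1) * b * (δ ^ (j + 1))⁻¹ = (δ ^ j * a) * b * (δ ^ j * a)⁻¹ := by
          rw [pow_succ, hδ]; group
        rw [e1, e2, alt_conj, alt_conj, hrel]
      · have h1 : i + 1 = 2 * (j + 1) := by omega
        rw [h1, hj, αe, αo, alt_conj, alt_conj, hrel]
    · intro he
      exfalso
      rw [hk] at he
      simp at he
    · intro i
      have hδm : δ ∈ Subgroup.closure ({a, b} : Set A) := mul_mem ha hb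
      rcases Nat.even_or_odd' i with ⟨j, hj | hj⟩
      · rw [hj, αe]
        exact mul_mem (mul_mem (pow_mem hδm _) ha) (inv_mem (pow_mem hδm _))
      · rw [hj, αo]
        exact mul_mem (mul_mem (pow_mem hδm _) hb) (inv_mem (pow_mem hδm _))

/-- residual finiteness passes to groups which embed -/
theorem rf_of_injective {G H : Type} [Group G] [Group H] (φ : G →* H) (hφ : Function.Injective φ)
    (h : RF H) : RF G := by
  have h' := Group.residuallyFinite_iff_forall_finiteIndexNormalSubgroup.1 h
  refine Group.residuallyFinite_iff_forall_finiteIndexNormalSubgroup.2 ?_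
  intro g hg
  apply hφ
  rw [map_one]
  apply h'
  intro N
  exact hg (N.comap φ)

/-- (PROD) -/
theorem prod : ProdStmt := by
  classical
  intro S M P Q hPQ hdis hcomm hP hQ
  have hmem : ∀ s, s ∉ P → s ∈ Q := by
    intro s hs
    have : s ∈ P ∪ Q := by rw [hPQ]; trivial
    rcases this with h | h
    · exact absurd h hs
    · exact h
  have hnot : ∀ s, s ∈ P → s ∉ Q := by
    intro s hs hs'
    have : s ∈ P ∩ Q := ⟨hs, hs'⟩
    rw [hdis] at this
    exact this
  obtain ⟨Φ, hΦ⟩ := lift M (G := Gp (res M P) × Gp (res M Q))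
    (fun s => if h : s ∈ P then (gen (res M P) ⟨s, h⟩, 1) else (1, gen (res M Q) ⟨s, hmem s h⟩)) (by
    intro s t hst
    by_cases hs : s ∈ P <;> by_cases ht : t ∈ P
    · simp only [hs, ht, dif_pos]
      have h1 := map_alt (MonoidHom.inl (Gp (res M P)) (Gp (res M Q))) (M.M s t)
        (gen (res M P) ⟨s, hs⟩) (gen (res M P) ⟨t, ht⟩)
      have h2 := map_alt (MonoidHom.inl (Gp (res M P)) (Gp (res M Q))) (M.M s t)
        (gen (res M P) ⟨t, ht⟩) (gen (res M P) ⟨s, hs⟩)
      simp only [MonoidHom.inl_apply] at h1 h2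
      rw [← h1, ← h2]
      have := relHolds (res M P) ⟨s, hs⟩ ⟨t, ht⟩ hst
      rw [res_apply] at this
      rw [this]
    · have h2 : M.M s t = 2 := hcomm s hs t (hmem t ht)
      simp only [hs, ht, dif_pos, dif_neg, not_false_eq_true]
      rw [h2, alt_two, alt_two]
      simp
    · have h2 : M.M s t = 2 := by rw [M.symmetric]; exact hcomm t ht s (hmem s hs)
      simp only [hs, ht, dif_pos, dif_neg, not_false_eq_true]
      rw [h2, alt_two, alt_two]
      simp
    · simp only [hs, ht, dif_neg, not_false_eq_true]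
      have h1 := map_alt (MonoidHom.inr (Gp (res M P)) (Gp (res M Q))) (M.M s t)
        (gen (res M Q) ⟨s, hmem s hs⟩) (gen (res M Q) ⟨t, hmem t ht⟩)
      have h2 := map_alt (MonoidHom.inr (Gp (res M P)) (Gp (res M Q))) (M.M s t)
        (gen (res M Q) ⟨t, hmem t ht⟩) (gen (res M Q) ⟨s, hmem s hs⟩)
      simp only [MonoidHom.inr_apply] at h1 h2
      rw [← h1, ← h2]
      have := relHolds (res M Q) ⟨s, hmem s hs⟩ ⟨t, hmem t ht⟩ hst
      rw [res_apply] at this
      rw [this])
  obtain ⟨ιP, hιP⟩ := inc M P
  obtain ⟨ιQ, hιQ⟩ := inc M Q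
  have hcc : ∀ (x : P) (y : Q), Commute (gen M x.1) (gen M y.1) := by
    intro x y
    have h := relHolds M x.1 y.1 (by rw [hcomm x.1 x.2 y.1 y.2]; norm_num)
    rw [hcomm x.1 x.2 y.1 y.2, alt_two, alt_two] at h
    exact h
  have hc : ∀ p q, Commute (ιP p) (ιQ q) := by
    intro p q
    have hp : p ∈ Subgroup.closure (Set.range (gen (res M P))) := by
      rw [closure_gen]; trivial
    have hq : q ∈ Subgroup.closure (Set.range (gen (res M Q))) := by
      rw [closure_gen]; trivial
    induction hp using Subgroup.closure_induction with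
    | mem x hx =>
      obtain ⟨x, rfl⟩ := hx
      induction hq using Subgroup.closure_induction with
      | mem y hy =>
        obtain ⟨y, rfl⟩ := hy
        rw [hιP, hιQ]
        exact hcc x y
      | one => rw [map_one]; exact Commute.one_right _
      | mul y z _ _ h1 h2 => rw [map_mul]; exact h1.mul_right h2
      | inv y _ h1 => rw [map_inv]; exact h1.inv_right
    | one => rw [map_one]; exact Commute.one_left _
    | mul y z _ _ h1 h2 => rw [map_mul]; exact h1.mul_left h2
    | inv y _ h1 => rw [map_inv]; exact h1.inv_left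
  have hinj : Function.Injective Φ := by
    have hcomp : (ιP.noncommCoprod ιQ hc).comp Φ = MonoidHom.id _ := by
      refine ext M _ _ ?_
      intro s
      rw [MonoidHom.comp_apply, hΦ]
      by_cases hs : s ∈ P
      · simp only [hs, dif_pos, MonoidHom.noncommCoprod_apply, map_one, mul_one, hιP,
          MonoidHom.id_apply]
      · simp only [hs, dif_neg, not_false_eq_true, MonoidHom.noncommCoprod_apply, map_one, one_mul,
          hιQ, MonoidHom.id_apply]
    intro x y hxy
    have h1 := congrArg (ιP.noncommCoprod ιQ hc) hxy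
    have h2 : ∀ z, (ιP.noncommCoprod ιQ hc) (Φ z) = z := fun z => by
      rw [← MonoidHom.comp_apply, hcomp]; rfl
    rw [h2, h2] at h1
    exact h1
  exact rf_of_injective Φ hinj inferInstance

end Art.H84
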