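import Pool.Agent.Helper44_Art.Stmt2

set_option autoImplicit false
set_option linter.unusedSectionVars false

namespace Art.H84

open Art Art.Lin

variable {S : Type} [Fintype S] [DecidableEq S] {M : CoxeterMatrix S} {k : Type} [Field k]
  (L : Lin M k)

/-- supported in `{x, y}` -/
def Vs (x y : S) (u : S → k) : Prop := ∀ r, r ≠ x → r ≠ y → u r = 0

theorem e_apply_ne {s r : S} (h : r ≠ s) : (e s : S → k) r = 0 := by
  unfold e; exact Pi.single_eq_of_ne h 1

theorem e_apply_self (s : S) : (e s : S → k) s = 1 := by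
  unfold e; simp

theorem rot_sub (x y : S) (n : ℕ) (u : S → k) : Vs x y (((L.f x * L.f y) ^ n).1 u - u) := by
  induction n generalizing u with
  | zero =>
    intro r _ _
    rw [pow_zero, one_apply]; simp
  | succ n ih =>
    intro r hx hy
    have h1 := ih u r hx hy
    rw [pow_succ', mul_apply, mul_apply, f_apply, f_apply]
    simp only [Pi.add_apply, Pi.sub_apply, Pi.smul_apply, smul_eq_mul] at h1 ⊢
    rw [e_apply_ne hx, e_apply_ne hy]
    linear_combination h1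

theorem e_x (x y : S) (h : x ≠ y) (hm : M.M x y ≠ 0) :
    (e x : S → k) = (L.zz x y - (L.zz x y)⁻¹)⁻¹ • L.Ep x y +
      (-(L.zz x y - (L.zz x y)⁻¹)⁻¹) • L.Em x y := by
  have hne := L.zsub_ne x y h hm
  unfold Lin.Ep Lin.Em
  ext r
  simp only [Pi.add_apply, Pi.smul_apply, smul_eq_mul]
  have : (L.zz x y - (L.zz x y)⁻¹)⁻¹ * (L.zz x y * e x r + e y r) +
      -(L.zz x y - (L.zz x y)⁻¹)⁻¹ * ((L.zz x y)⁻¹ * e x r + e y r) =
      ((L.zz x y - (L.zz x y)⁻¹)⁻¹ * (L.zz x y - (L.zz x y)⁻¹)) * e x r := by ring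
  rw [this, inv_mul_cancel₀ hne, one_mul]

theorem span_xy (x y : S) (h : x ≠ y) (hm : M.M x y ≠ 0) (u : S → k) (hu : Vs x y u) :
    ∃ α β : k, u = α • L.Ep x y + β • L.Em x y := by
  have h1 : u = u x • e x + u y • e y := by
    ext r
    simp only [Pi.add_apply, Pi.smul_apply, smul_eq_mul]
    by_cases hx : r = x
    · subst hx
      rw [e_apply_self, e_apply_ne h]; ring
    · by_cases hy : r = y
      · subst hy
        rw [e_apply_self, e_apply_ne hx]; ring
      · rw [e_apply_ne hx, e_apply_ne hy, hu r hx hy]; ring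
  have h2 : (e y : S → k) = L.Ep x y + (-(L.zz x y)) • e x := by
    unfold Lin.Ep; ext r; simp only [Pi.add_apply, Pi.smul_apply, smul_eq_mul]; ring
  have h3 := e_x L x y h hm
  set c := (L.zz x y - (L.zz x y)⁻¹)⁻¹ with hc
  refine ⟨u x * c + u y * (1 + (-(L.zz x y)) * c), -(u x * c) + u y * (L.zz x y * c), ?_⟩
  rw [h2, h3] at h1
  rw [h1]
  ext r
  have e1 := congrFun h1 x
  have e2 := congrFun h1 y
  rw [← h1]
  have e3 := congrFun h1 r
  simp only [Pi.add_apply, Pi.smul_apply, smul_eq_mul] at e3 ⊢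
  linear_combination e3

theorem B_comb (x y : S) (h : x ≠ y) (hm : M.M x y ≠ 0) (α β : k) :
    L.B (α • L.Ep x y + β • L.Em x y) (α • L.Ep x y + β • L.Em x y) =
      2 * α * β * L.B (L.Ep x y) (L.Em x y) := by
  rw [B_add_left, B_add_right, B_add_right, B_smul_left, B_smul_left, B_smul_left, B_smul_left,
    B_smul_right, B_smul_right, B_smul_right, B_smul_right, B_Ep_Ep L x y h hm, B_Em_Em L x y h hm,
    L.B_symm (L.Em x y) (L.Ep x y)]
  ring

/-- isotropic vectors of the plane -/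
theorem iso_vec (x y : S) (h : x ≠ y) (hm : M.M x y ≠ 0) (u : S → k) (hu : Vs x y u)
    (hB : L.B u u = 0) : (∃ α : k, u = α • L.Ep x y) ∨ ∃ β : k, u = β • L.Em x y := by
  obtain ⟨α, β, rfl⟩ := span_xy L x y h hm u hu
  rw [B_comb L x y h hm] at hB
  have h1 := L.B_Ep_Em_ne x y h hm
  have h2 := L.two_ne
  rcases mul_eq_zero.1 hB with h3 | h3
  · rcases mul_eq_zero.1 h3 with h4 | h4
    · rcases mul_eq_zero.1 h4 with h5 | h5
      · exact absurd h5 h2
      · right; exact ⟨β, by rw [h5, zero_smul, zero_add]⟩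
    · left; exact ⟨α, by rw [h4, zero_smul, add_zero]⟩
  · exact absurd h3 h1

/-- a rotation with trivial eigenvalue is trivial -/
theorem rot_one (s t : S) (h : s ≠ t) (hm : M.M s t ≠ 0) (n : ℕ)
    (h1 : ((L.zz s t) ^ 2) ^ n = 1) : (L.f s * L.f t) ^ n = 1 := by
  apply L.ext_plane s t h hm
  · rw [rot_pow_Ep L s t h hm, one_apply, h1, one_smul]
  · rw [rot_pow_Em L s t h hm, one_apply, inv_pow, h1, inv_one, one_smul]
  · intro u h1 h2
    rw [rot_fix L s t u h1 h2, one_apply]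

theorem conj_apply (v w : L.iso) (u : S → k) : (v * w * v⁻¹).1 (v.1 u) = v.1 (w.1 u) := by
  rw [mul_apply, mul_apply, inv_apply_self]

/-- the core: the images of the eigenvectors -/
theorem core (x y s t : S) (v : L.iso) (n n' : ℕ) (hxy : x ≠ y) (hst : s ≠ t)
    (hmx : M.M x y ≠ 0) (hms : M.M s t ≠ 0)
    (he : v * (L.f s * L.f t) ^ n * v⁻¹ = (L.f x * L.f y) ^ n') (hne : (L.f x * L.f y) ^ n' ≠ 1) :
    (∃ α β : k, α ≠ 0 ∧ β ≠ 0 ∧ v.1 (L.Ep s t) = α • L.Ep x y ∧ v.1 (L.Em s t) = β • L.Em x y) ∨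
    ∃ α β : k, α ≠ 0 ∧ β ≠ 0 ∧ v.1 (L.Ep s t) = α • L.Em x y ∧ v.1 (L.Em s t) = β • L.Ep x y := by
  set lam := ((L.zz s t) ^ 2) ^ n with hlam
  have hlam1 : lam ≠ 1 := by
    intro h1
    apply hne
    rw [← he, rot_one L s t hst hms n h1]; group
  have hlam0 : lam ≠ 0 := pow_ne_zero _ (pow_ne_zero _ (L.zz_ne_zero s t hms))
  have hvs : ∀ (u : S → k) (c : k), c ≠ 1 → ((L.f s * L.f t) ^ n).1 u = c • u → Vs x y (v.1 u) := by
    intro u c hc hu r hrx hry
    have h1 := rot_sub L x y n' (v.1 u) r hrx hry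
    rw [← he, conj_apply, hu, map_smul] at h1
    simp only [Pi.sub_apply, Pi.smul_apply, smul_eq_mul] at h1
    have h2 : (c - 1) * v.1 u r = 0 := by linear_combination h1
    rcases mul_eq_zero.1 h2 with h3 | h3
    · exact absurd (sub_eq_zero.1 h3) hc
    · exact h3
  have hP := hvs (L.Ep s t) lam hlam1 (rot_pow_Ep L s t hst hms n)
  have hlam1' : ((L.zz s t ^ 2)⁻¹) ^ n ≠ 1 := by
    rw [inv_pow, ← hlam]
    intro h
    exact hlam1 (inv_eq_one.1 h)
  have hN := hvs (L.Em s t) _ hlam1' (rot_pow_Em L s t hst hms n)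
  have bP : L.B (v.1 (L.Ep s t)) (v.1 (L.Ep s t)) = 0 := by rw [iso_B, B_Ep_Ep L s t hst hms]
  have bN : L.B (v.1 (L.Em s t)) (v.1 (L.Em s t)) = 0 := by rw [iso_B, B_Em_Em L s t hst hms]
  have bPN : L.B (v.1 (L.Ep s t)) (v.1 (L.Em s t)) ≠ 0 := by
    rw [iso_B]; exact L.B_Ep_Em_ne s t hst hms
  rcases iso_vec L x y hxy hmx _ hP bP with ⟨α, hα⟩ | ⟨α, hα⟩ <;>
    rcases iso_vec L x y hxy hmx _ hN bN with ⟨β, hβ⟩ | ⟨β, hβ⟩
  · exfalso
    apply bPN
    rw [hα, hβ, B_smul_left, B_smul_right, B_Ep_Ep L x y hxy hmx]; ring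
  · left
    refine ⟨α, β, ?_, ?_, hα, hβ⟩
    · rintro rfl
      apply bPN
      rw [hα, hβ, B_smul_left]; ring
    · rintro rfl
      apply bPN
      rw [hα, hβ, B_smul_left, B_smul_right]; ring
  · right
    refine ⟨α, β, ?_, ?_, hα, hβ⟩
    · rintro rfl
      apply bPN
      rw [hα, hβ, B_smul_left]; ring
    · rintro rfl
      apply bPN
      rw [hα, hβ, B_smul_left, B_smul_right]; ring
  · exfalso
    apply bPN
    rw [hα, hβ, B_smul_left, B_smul_right, B_Em_Em L x y hxy hmx]; ring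

theorem Vs_Ep (x y : S) : Vs x y (L.Ep x y) := by
  intro r hx hy
  unfold Lin.Ep
  simp only [Pi.add_apply, Pi.smul_apply, smul_eq_mul]
  rw [e_apply_ne hx, e_apply_ne hy]; ring

theorem Vs_Em (x y : S) : Vs x y (L.Em x y) := by
  intro r hx hy
  unfold Lin.Em
  simp only [Pi.add_apply, Pi.smul_apply, smul_eq_mul]
  rw [e_apply_ne hx, e_apply_ne hy]; ring

theorem Vs_smul (x y : S) (c : k) (u : S → k) (h : Vs x y u) : Vs x y (c • u) := by
  intro r hx hy
  rw [Pi.smul_apply, h r hx hy, smul_zero]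

theorem Vs_of_smul (x y : S) {c : k} (hc : c ≠ 0) {u w : S → k} (h : Vs x y w) (e : w = c • u) :
    Vs x y u := by
  intro r hx hy
  have h1 := h r hx hy
  rw [e, Pi.smul_apply, smul_eq_mul] at h1
  rcases mul_eq_zero.1 h1 with h2 | h2
  · exact absurd h2 hc
  · exact h2

/-- (PLANE) -/
theorem plane : PlaneStmt := by
  intro S _ _ M k _ L x y a b s t v n n' l l' hxy hab hst hmx hma hms he hne he' hne'
  have h1 := core L x y s t v n n' hxy hst hmx hms he hne
  have h2 := core L a b s t v l l' hab hst hma hms he' hne'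
  -- the images lie in the plane of `x`, `y`
  have hPN : Vs x y (v.1 (L.Ep s t)) ∧ Vs x y (v.1 (L.Em s t)) := by
    rcases h1 with ⟨α, β, _, _, e1, e2⟩ | ⟨α, β, _, _, e1, e2⟩
    · rw [e1, e2]
      exact ⟨Vs_smul x y _ _ (Vs_Ep L x y), Vs_smul x y _ _ (Vs_Em L x y)⟩
    · rw [e1, e2]
      exact ⟨Vs_smul x y _ _ (Vs_Em L x y), Vs_smul x y _ _ (Vs_Ep L x y)⟩
  have hab' : Vs x y (L.Ep a b) ∧ Vs x y (L.Em a b) := by
    rcases h2 with ⟨α, β, hα, hβ, e1, e2⟩ | ⟨α, β, hα, hβ, e1, e2⟩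
    · exact ⟨Vs_of_smul x y hα hPN.1 e1, Vs_of_smul x y hβ hPN.2 e2⟩
    · exact ⟨Vs_of_smul x y hβ hPN.2 e2, Vs_of_smul x y hα hPN.1 e1⟩
  have hea : Vs x y (e a : S → k) := by
    rw [e_x L a b hab hma]
    intro r hx hy
    rw [Pi.add_apply, Pi.smul_apply, Pi.smul_apply, hab'.1 r hx hy, hab'.2 r hx hy]; simp
  have heb : Vs x y (e b : S → k) := by
    have h2 : (e b : S → k) = L.Ep a b + (-(L.zz a b)) • e a := by
      unfold Lin.Ep; ext r; simp only [Pi.add_apply, Pi.smul_apply, smul_eq_mul]; ring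
    rw [h2]
    intro r hx hy
    rw [Pi.add_apply, Pi.smul_apply, hab'.1 r hx hy, hea r hx hy]; simp
  constructor
  · by_contra hcon
    push Not at hcon
    have := hea a hcon.1 hcon.2
    rw [e_apply_self] at this
    exact one_ne_zero this
  · by_contra hcon
    push Not at hcon
    have := heb b hcon.1 hcon.2
    rw [e_apply_self] at this
    exact one_ne_zero this

theorem zz_pow (s t : S) (g : ℕ) (hg : g ∣ M.M s t) (hm : M.M s t ≠ 0) :
    ((L.zz s t) ^ 2) ^ (M.M s t / g) = L.z ^ (2 * (L.K / g)) := by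
  obtain ⟨c, hc⟩ := L.dvd s t hm
  obtain ⟨d, hd⟩ := hg
  have hm' : 0 < M.M s t := Nat.pos_of_ne_zero hm
  have hg0 : 0 < g := by
    rcases Nat.eq_zero_or_pos g with h | h
    · rw [h, zero_mul] at hd; omega
    · exact h
  have e1 : L.K / M.M s t = c := by rw [hc]; exact Nat.mul_div_cancel_left c hm'
  have e2 : M.M s t / g = d := by
    rw [hd]; exact Nat.mul_div_cancel_left d hg0
  have e3 : L.K / g = d * c := by
    rw [hc, hd, mul_assoc]; exact Nat.mul_div_cancel_left _ hg0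
  unfold Lin.zz
  rw [e1, e2, e3, ← pow_mul, ← pow_mul]
  congr 1
  ring

/-- vectors orthogonal to the plane of `x`, `y` -/
theorem orth (x y : S) (h : x ≠ y) (u w : S → k) (h1 : L.B u (e x) = 0)
    (h2 : L.B u (e y) = 0) (hw : Vs x y w) : L.B u w = 0 := by
  have h3 : w = w x • e x + w y • e y := by
    ext r
    simp only [Pi.add_apply, Pi.smul_apply, smul_eq_mul]
    by_cases hx : r = x
    · subst hx
      rw [e_apply_self, e_apply_ne h]; ring
    · by_cases hy : r = y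
      · subst hy
        rw [e_apply_self, e_apply_ne hx]; ring
      · rw [e_apply_ne hx, e_apply_ne hy, hw r hx hy]; ring
  rw [h3, B_add_right, B_smul_right, B_smul_right, h1, h2]; ring

/-- (ROT) -/
theorem rot : RotStmt := by
  intro S _ _ M k _ L x y s t v n n' hxy hst hmx hms he hne
  set g := Nat.gcd (M.M s t) (M.M x y) with hg
  have g1 : g ∣ M.M s t := Nat.gcd_dvd_left _ _
  have g2 : g ∣ M.M x y := Nat.gcd_dvd_right _ _
  set d := M.M s t / g with hd
  set e' := M.M x y / g with he'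
  have hz1 := zz_pow L s t g g1 hms
  have hz2 := zz_pow L x y g g2 hmx
  set ζ := L.z ^ (2 * (L.K / g)) with hζ
  have hζ0 : ζ ≠ 0 := by rw [← hz1]; exact pow_ne_zero _ (pow_ne_zero _ (L.zz_ne_zero s t hms))
  have hcore := core L x y s t v n n' hxy hst hmx hms he hne
  have hPN : Vs x y (v.1 (L.Ep s t)) ∧ Vs x y (v.1 (L.Em s t)) := by
    rcases hcore with ⟨α, β, _, _, e1, e2⟩ | ⟨α, β, _, _, e1, e2⟩
    · rw [e1, e2]
      exact ⟨Vs_smul x y _ _ (Vs_Ep L x y), Vs_smul x y _ _ (Vs_Em L x y)⟩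
    · rw [e1, e2]
      exact ⟨Vs_smul x y _ _ (Vs_Em L x y), Vs_smul x y _ _ (Vs_Ep L x y)⟩
  have hves : Vs x y (v.1 (e s)) := by
    rw [e_x L s t hst hms, map_add, map_smul, map_smul]
    intro r hx hy
    rw [Pi.add_apply, Pi.smul_apply, Pi.smul_apply, hPN.1 r hx hy, hPN.2 r hx hy]; simp
  have hvet : Vs x y (v.1 (e t)) := by
    have h2 : (e t : S → k) = L.Ep s t + (-(L.zz s t)) • e s := by
      unfold Lin.Ep; ext r; simp only [Pi.add_apply, Pi.smul_apply, smul_eq_mul]; ring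
    rw [h2, map_add, map_smul]
    intro r hx hy
    rw [Pi.add_apply, Pi.smul_apply, hPN.1 r hx hy, hves r hx hy]; simp
  -- both sides fix the orthogonal complement
  have hfix : ∀ u, L.B u (e x) = 0 → L.B u (e y) = 0 →
      (v * (L.f s * L.f t) ^ d * v⁻¹).1 u = u := by
    intro u h1 h2
    have hu : v.1 ((v⁻¹).1 u) = u := apply_inv_self L v u
    have e1 : L.B ((v⁻¹).1 u) (e s) = 0 := by
      rw [← iso_B L v, hu]
      exact orth L x y hxy u _ h1 h2 hves
    have e2 : L.B ((v⁻¹).1 u) (e t) = 0 := by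
      rw [← iso_B L v, hu]
      exact orth L x y hxy u _ h1 h2 hvet
    rw [mul_apply, mul_apply, rot_fix L s t _ e1 e2, hu]
  have hRP : (v * (L.f s * L.f t) ^ d * v⁻¹).1 (v.1 (L.Ep s t)) = ζ • v.1 (L.Ep s t) := by
    rw [conj_apply, rot_pow_Ep L s t hst hms, hz1, map_smul]
  have hRN : (v * (L.f s * L.f t) ^ d * v⁻¹).1 (v.1 (L.Em s t)) = ζ⁻¹ • v.1 (L.Em s t) := by
    rw [conj_apply, rot_pow_Em L s t hst hms, inv_pow, hz1, map_smul]
  have hrP : ((L.f x * L.f y) ^ e').1 (L.Ep x y) = ζ • L.Ep x y := by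
    rw [rot_pow_Ep L x y hxy hmx, hz2]
  have hrN : ((L.f x * L.f y) ^ e').1 (L.Em x y) = ζ⁻¹ • L.Em x y := by
    rw [rot_pow_Em L x y hxy hmx, inv_pow, hz2]
  have cancel : ∀ (R : L.iso) (c q : k) (u w : S → k), c ≠ 0 → w = c • u → R.1 w = q • w →
      R.1 u = q • u := by
    intro R c q u w hc hw hR
    have h1 : c • R.1 u = c • (q • u) := by
      rw [← map_smul, ← hw, hR, hw, smul_smul, smul_smul, mul_comm]
    have h2 := congrArg (fun z => c⁻¹ • z) h1
    simp only [smul_smul, inv_mul_cancel₀ hc, one_smul] at h2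
    rw [h2, ← mul_assoc, inv_mul_cancel₀ hc, one_mul]
  rcases hcore with ⟨α, β, hα, hβ, e1, e2⟩ | ⟨α, β, hα, hβ, e1, e2⟩
  · left
    have r1 := cancel _ α ζ (L.Ep x y) _ hα e1 hRP
    have r2 := cancel _ β ζ⁻¹ (L.Em x y) _ hβ e2 hRN
    apply L.ext_plane x y hxy hmx
    · rw [r1, hrP]
    · rw [r2, hrN]
    · intro u h1 h2
      rw [hfix u h1 h2, rot_fix L x y u h1 h2]
  · right
    have r1 := cancel _ α ζ (L.Em x y) _ hα e1 hRP
    have r2 := cancel _ β ζ⁻¹ (L.Ep x y) _ hβ e2 hRN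
    rw [← mul_eq_one_iff_eq_inv]
    apply L.ext_plane x y hxy hmx
    · rw [mul_apply, hrP, map_smul, r2, smul_smul, mul_inv_cancel₀ hζ0, one_smul, one_apply]
    · rw [mul_apply, hrN, map_smul, r1, smul_smul, inv_mul_cancel₀ hζ0, one_smul, one_apply]
    · intro u h1 h2
      rw [mul_apply, rot_fix L x y u h1 h2, hfix u h1 h2, one_apply]

end Art.H84
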